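import Pool.Agent.Lib.MP_b5021c_nt.IfaceB

/-!
# Board b5, row A5C: growth of a function with real part at least `1/2`
-/

namespace Pool.Agent.B5.H18

open Polynomial Metric

theorem a5c : A5S := by
  intro x y e he hyx hne s hs
  set W : ℂ → ℂ := fun s => x.eval s / (x.eval s + e * y.eval s) with hW
  have hdiff : DifferentiableOn ℂ (fun s => - W s) (ball 0 1) := by
    intro t ht
    have ht' : ‖t‖ < 1 := mem_ball_zero_iff.mp ht
    apply DifferentiableAt.differentiableWithinAt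
    apply DifferentiableAt.neg
    apply DifferentiableAt.div
    · exact x.differentiable t
    · exact (x.differentiable t).add ((y.differentiable t).const_mul e)
    · exact hne t ht'
  have hmaps : Set.MapsTo (fun s => - W s) (ball 0 1) {z | z.re ≤ 1} := by
    intro t ht
    have ht' : ‖t‖ < 1 := mem_ball_zero_iff.mp ht
    have h1 := hyx t ht'
    have h2 := hne t ht'
    have h3 : ‖1 - W t‖ ≤ ‖W t‖ := by
      have h4 : 1 - W t = e * y.eval t / (x.eval t + e * y.eval t) := by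
        rw [hW]; field_simp; ring
      rw [h4, hW]
      simp only [norm_div, norm_mul, he, one_mul]
      gcongr
    have h5 : ‖1 - W t‖ ^ 2 ≤ ‖W t‖ ^ 2 := by gcongr
    rw [Complex.sq_norm, Complex.sq_norm, Complex.normSq_apply, Complex.normSq_apply] at h5
    simp only [Complex.sub_re, Complex.one_re, Complex.sub_im, Complex.one_im] at h5
    simp only [Set.mem_ofPred_eq, Complex.neg_re]
    nlinarith
  have hz : s ∈ ball (0 : ℂ) 1 := mem_ball_zero_iff.mpr hs
  have key := Complex.borelCaratheodory (f := fun s => - W s) (M := 1) one_pos hdiff hmaps one_pos hz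
  simp only [norm_neg] at key
  have h0 : 0 < 1 - ‖s‖ := by linarith
  have hW0 : ‖W 0‖ = ‖x.coeff 0‖ / ‖x.coeff 0 + e * y.coeff 0‖ := by
    rw [hW]; simp only [norm_div, ← Polynomial.coeff_zero_eq_eval_zero]
  have hpos : 0 < ‖x.eval s + e * y.eval s‖ := norm_pos_iff.mpr (hne s hs)
  have hWs : ‖x.eval s‖ = ‖W s‖ * ‖x.eval s + e * y.eval s‖ := by
    rw [hW]; simp only [norm_div]; field_simp
  have h6 : ‖W s‖ * (1 - ‖s‖) ≤ 2 * ‖W 0‖ + 2 := by
    have h7 : ‖W s‖ ≤ (2 * ‖s‖ + ‖W 0‖ * (1 + ‖s‖)) / (1 - ‖s‖) := by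
      refine key.trans (le_of_eq ?_)
      field_simp
    rw [le_div_iff₀ h0] at h7
    have h8 : ‖W 0‖ * (1 + ‖s‖) ≤ ‖W 0‖ * 2 := by
      gcongr; linarith
    linarith
  rw [hWs, ← hW0]
  calc ‖W s‖ * ‖x.eval s + e * y.eval s‖ * (1 - ‖s‖)
      = (‖W s‖ * (1 - ‖s‖)) * ‖x.eval s + e * y.eval s‖ := by ring
    _ ≤ (2 * ‖W 0‖ + 2) * ‖x.eval s + e * y.eval s‖ := by gcongr

end Pool.Agent.B5.H18
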