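import Pool.Agent.Lib.MP_b5021c_nt.IfaceK3

/-!
# MP_b5021c_nt, row STE: `PolyFree` gives stability of `toE D`
(the same proof as for `toA D` by helper31, with coefficients in the Eisenstein integers)
-/

namespace Pool.Agent.B5.H18.Ste

open Polynomial Pool.Agent.B5 Pool.Agent.MP_b5021c_nt

noncomputable section

variable {ι : Type} [Fintype ι] [DecidableEq ι]

/-- The sum of the coordinates. -/
def lam (ι : Type) [Fintype ι] : (ι → ℤ) →+ ℤ where
  toFun a := ∑ i, a i
  map_zero' := by simp
  map_add' a b := by simp [Finset.sum_add_distrib]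

theorem lam_ind (S : Finset ι) : lam ι (ind S) = (S.card : ℤ) := by
  change ∑ i, ind S i = _
  simp [ind]

omit [Fintype ι] in
theorem ind_empty : ind (∅ : Finset ι) = 0 := by
  funext i
  simp [ind]

omit [Fintype ι] in
theorem ind_sum (S : Finset ι) : ind S = ∑ i ∈ S, ind ({i} : Finset ι) := by
  funext j
  rw [Finset.sum_apply]
  simp [ind]

/-- `sl` as an additive map. -/
def slH {L : Type} [AddCommGroup L] (u : AddChar L Circle) (l : L →+ ℤ) : CA L →+ Polynomial ℂ where
  toFun p := sl u l p
  map_zero' := by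
    change (0 : CA L).coeff.sum (fun a c => Polynomial.monomial (l a).toNat (c * (u a : ℂ))) = 0
    simp
  map_add' p q := by
    change (p + q).coeff.sum (fun a c => Polynomial.monomial (l a).toNat (c * (u a : ℂ))) =
      p.coeff.sum (fun a c => Polynomial.monomial (l a).toNat (c * (u a : ℂ))) +
      q.coeff.sum (fun a c => Polynomial.monomial (l a).toNat (c * (u a : ℂ)))
    rw [AddMonoidAlgebra.coeff_add]
    refine Finsupp.sum_add_index' ?_ ?_
    · intro a; simp
    · intro a b c; rw [add_mul, map_add]

theorem sl_single {L : Type} [AddCommGroup L] (u : AddChar L Circle) (l : L →+ ℤ) (a : L) (c : ℂ) :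
    slH u l (AddMonoidAlgebra.single a c) = Polynomial.monomial (l a).toNat (c * (u a : ℂ)) := by
  change (AddMonoidAlgebra.single a c).coeff.sum
    (fun a c => Polynomial.monomial (l a).toNat (c * (u a : ℂ))) = _
  rw [AddMonoidAlgebra.coeff_single, Finsupp.sum_single_index]
  simp

theorem evR_toLaurent (z : Circle) (p : ℤ[X]) :
    evR z (Polynomial.toLaurent (p.map (Int.castRingHom Eis))) = pv p (z : ℂ) := by
  unfold evR pv
  rw [LaurentPolynomial.eval₂_toLaurent, Polynomial.eval₂_map]
  have h : (Coef.emb : Eis →+* ℂ).comp (Int.castRingHom Eis) = algebraMap ℤ ℂ :=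
    RingHom.ext_int _ _
  rw [h]
  rfl

theorem eval_sl (D : Finset ι → ℤ[X]) (z : Circle) (u : AddChar (ι → ℤ) Circle) (s : ℂ) :
    (sl u (lam ι) (spec z (toE D))).eval s =
      mv D (z : ℂ) (fun i => (u (ind ({i} : Finset ι)) : ℂ) * s) := by
  have h1 : spec z (toE D) = ∑ S : Finset ι, AddMonoidAlgebra.single (ind S) (pv (D S) (z : ℂ)) := by
    unfold toE spec
    rw [map_sum]
    refine Finset.sum_congr rfl fun S _ => ?_
    rw [AddMonoidAlgebra.mapRingHom_single, evR_toLaurent]
  change (slH u (lam ι) (spec z (toE D))).eval s = _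
  rw [h1, map_sum, Polynomial.eval_finsetSum]
  unfold mv
  refine Finset.sum_congr rfl fun S _ => ?_
  rw [sl_single, Polynomial.eval_monomial, lam_ind, Int.toNat_natCast]
  have h2 : ((u (ind S) : Circle) : ℂ) = ∏ i ∈ S, (u (ind ({i} : Finset ι)) : ℂ) := by
    conv_lhs => rw [ind_sum S]
    have h3 : ∀ T : Finset ι, u (∑ i ∈ T, ind ({i} : Finset ι)) =
        ∏ i ∈ T, u (ind ({i} : Finset ι)) := by
      intro T
      induction T using Finset.induction_on with
      | empty => simp
      | insert a T ha ih => rw [Finset.sum_insert ha, Finset.prod_insert ha, AddChar.map_add_eq_mul, ih]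
    rw [h3]
    exact map_prod Circle.coeHom _ _
  rw [h2, Finset.prod_mul_distrib, Finset.prod_const]
  ring

theorem toLaurent_map_ne {p : ℤ[X]} (hp : p ≠ 0) :
    Polynomial.toLaurent (p.map (Int.castRingHom Eis)) ≠ 0 := by
  intro h
  apply hp
  have hinj : Function.Injective (Int.castRingHom Eis) := by
    intro a b hab
    have h2 := congrArg QuadraticAlgebra.re hab
    simpa using h2
  apply Polynomial.map_injective _ hinj
  rw [Polynomial.map_zero]
  exact Polynomial.toLaurent_injective (by rw [h, map_zero])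

theorem ste (tce : TceS) : SteS := by
  intro ι _ _ D θ hD hθ
  obtain ⟨_, h0, _⟩ := hθ
  have hne : D ∅ ≠ 0 := by
    intro h
    rw [h] at h0
    simp at h0
  refine ⟨?_, lam ι, ?_, ?_⟩
  · have h := (tce ι D).1 ∅
    rw [ind_empty] at h
    rw [h]
    exact toLaurent_map_ne hne
  · intro a ha ha0
    rw [Finsupp.mem_support_iff] at ha
    obtain ⟨S, rfl, hS⟩ := (tce ι D).2 a ha
    rw [lam_ind]
    have : S ≠ ∅ := by
      rintro rfl
      exact ha0 ind_empty
    exact_mod_cast Finset.card_pos.mpr (Finset.nonempty_of_ne_empty this)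
  · intro z hz u s hs
    rw [eval_sl]
    apply hD
    · exact Circle.norm_coe z
    · intro i
      rw [norm_mul, Circle.norm_coe, one_mul]
      exact hs

end

end Pool.Agent.B5.H18.Ste

namespace Pool.Agent.B5.H18

open Pool.Agent.MP_b5021c_nt

theorem ste : TceS → SteS := Ste.ste

end Pool.Agent.B5.H18
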