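import Pool.Agent.Lib.MP_b5021c_nt.IfaceB

/-!
# Board b5, row STS: relation between `Stable` and `StableC`
-/

namespace Pool.Agent.B5.H18

open Polynomial

theorem sts_sl_eval {L : Type} [AddCommGroup L] (u : AddChar L Circle) (lam : L →+ ℤ) (p : CA L)
    (s : ℂ) : (sl u lam p).eval s = mev (ι := Unit) u (fun _ => lam) (fun _ => s) p := by
  unfold sl mev Finsupp.sum
  rw [Polynomial.eval_finsetSum]
  apply Finset.sum_congr rfl
  intro a _
  simp [Polynomial.eval_monomial]

theorem sts_pos {O : Type} [CommRing O] [Coef O] {L : Type} [AddCommGroup L] {lam : L →+ ℤ}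
    {G : AO O L} (h : Pos lam G) (z : Circle) : Pos lam (spec z G) := by
  intro a ha ha0
  apply h a _ ha0
  rw [Finsupp.mem_support_iff] at ha ⊢
  intro h0
  apply ha
  rw [spec_coeff, h0, map_zero]

theorem sts_multi (hM : MultiS) {L : Type} [AddCommGroup L] [Module.Free ℤ L] [Module.Finite ℤ L]
    {p : CA L} (hp : StableC p) {lam : L →+ ℤ} (hl : Pos lam p) (u : AddChar L Circle) {s : ℂ}
    (hs : ‖s‖ < 1) : (sl u lam p).eval s ≠ 0 := by
  rw [sts_sl_eval]
  apply hM L p hp Unit (fun _ => lam)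
  · intro _ a ha
    by_cases h0 : a = 0
    · rw [h0, map_zero]
    · exact (hl a ha h0).le
  · intro a ha h0
    simpa using hl a ha h0
  · intro _; exact hs

theorem sts : MultiS → StSpecS := by
  intro hM O _ _ _ _ L _ _ _ G
  have h1 : Stable G → ∀ z : Circle, evR z (G.coeff 0) ≠ 0 → StableC (spec z G) := by
    rintro ⟨h0, lam, hl, hs⟩ z hz
    refine ⟨?_, lam, sts_pos hl z, fun u s hs' => hs z hz u s hs'⟩
    rw [spec_coeff]; exact hz
  refine ⟨h1, ?_, ?_⟩
  · rintro h0 ⟨lam, hl⟩ h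
    exact ⟨h0, lam, hl, fun z hz u s hs => sts_multi hM (h z hz) (sts_pos hl z) u hs⟩
  · intro hS lam hl z hz u s hs
    exact sts_multi hM (h1 hS z hz) (sts_pos hl z) u hs

end Pool.Agent.B5.H18
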