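import Pool.Agent.Lib.MP_b5021c_nt.IfaceK3

/-!
# MP_b5021c_nt, row UNE: `UniK D` gives `Unitary (toE D)`
(the same proof as for `toA D` by helper50, with coefficients in the Eisenstein integers)
-/

namespace Pool.Agent.B5.H18.Une

open Polynomial Pool.Agent.B5 Pool.Agent.MP_b5021c_nt

noncomputable section

theorem toLaurent_reflect {K : Type} [CommRing K] (N : ℕ) (p : K[X]) (hp : p.natDegree ≤ N) :
    Polynomial.toLaurent (p.reflect N) =
      LaurentPolynomial.invert (Polynomial.toLaurent p) * LaurentPolynomial.T (N : ℤ) := by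
  refine Polynomial.induction_with_natDegree_le
    (fun p => Polynomial.toLaurent (p.reflect N) =
      LaurentPolynomial.invert (Polynomial.toLaurent p) * LaurentPolynomial.T (N : ℤ)) N ?_ ?_ ?_ p hp
  · simp
  · intro n r _ hn
    rw [Polynomial.reflect_C_mul_X_pow, Polynomial.revAt_le hn, Polynomial.toLaurent_C_mul_X_pow,
      Polynomial.toLaurent_C_mul_X_pow, map_mul, LaurentPolynomial.invert_C,
      LaurentPolynomial.invert_T, mul_assoc, ← LaurentPolynomial.T_add]
    congr 2
    push_cast [hn]
    ring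
  · intro f g _ _ hf hg
    rw [Polynomial.reflect_add, map_add, map_add, map_add, add_mul, hf, hg]

theorem rsh_map (p : ℤ[X]) : rsh (Polynomial.toLaurent (p.map (Int.castRingHom Eis))) =
    LaurentPolynomial.invert (Polynomial.toLaurent (p.map (Int.castRingHom Eis))) := by
  have h : AddMonoidAlgebra.mapRingHom ℤ (Coef.conj : Eis ≃+* Eis).toRingHom
      (Polynomial.toLaurent (p.map (Int.castRingHom Eis))) =
      Polynomial.toLaurent (p.map (Int.castRingHom Eis)) := by
    have h2 : ((AddMonoidAlgebra.mapRingHom ℤ (Coef.conj : Eis ≃+* Eis).toRingHom).comp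
        (Polynomial.toLaurent (R := Eis))).comp (Polynomial.mapRingHom (Int.castRingHom Eis)) =
        (Polynomial.toLaurent (R := Eis)).comp (Polynomial.mapRingHom (Int.castRingHom Eis)) := by
      apply Polynomial.ringHom_ext'
      · exact RingHom.ext_int _ _
      · simp only [RingHom.comp_apply, Polynomial.coe_mapRingHom, Polynomial.map_X,
          Polynomial.toLaurent_X]
        change AddMonoidAlgebra.mapRingHom ℤ _ (AddMonoidAlgebra.single 1 1) = _
        rw [AddMonoidAlgebra.mapRingHom_single, map_one]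
        rfl
    exact RingHom.congr_fun h2 p
  change LaurentPolynomial.invert (AddMonoidAlgebra.mapRingHom ℤ
    (Coef.conj : Eis ≃+* Eis).toRingHom (Polynomial.toLaurent (p.map (Int.castRingHom Eis)))) = _
  rw [h]

theorem sharp_single' {L : Type} [AddCommGroup L] (a : L) (q : RO Eis) :
    sharp (AddMonoidAlgebra.single a q : AO Eis L) = AddMonoidAlgebra.single (-a) (rsh q) := by
  simp [sharp]

theorem neg_ind_add {ι : Type} [Fintype ι] [DecidableEq ι] (S : Finset ι) :
    -(ind S) + (fun _ => 1 : ι → ℤ) = ind Sᶜ := by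
  funext i
  by_cases h : i ∈ S <;> simp [ind, h]

/-- The monomial unit `ε z^N w^(1..1)`. -/
def mu {ι : Type} (ε : Eis) (N : ℕ) (h : ε * ε = 1) : (AO Eis (ι → ℤ))ˣ where
  val := AddMonoidAlgebra.single (fun _ => 1) (LaurentPolynomial.C ε * LaurentPolynomial.T (N : ℤ))
  inv := AddMonoidAlgebra.single (fun _ => -1) (LaurentPolynomial.C ε * LaurentPolynomial.T (-(N : ℤ)))
  val_inv := by
    rw [AddMonoidAlgebra.single_mul_single, AddMonoidAlgebra.one_def]
    congr 1
    rw [mul_mul_mul_comm, ← map_mul, h, ← LaurentPolynomial.T_add]; simp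
  inv_val := by
    rw [AddMonoidAlgebra.single_mul_single, AddMonoidAlgebra.one_def]
    congr 1
    rw [mul_mul_mul_comm, ← map_mul, h, ← LaurentPolynomial.T_add]; simp

theorem map_reflect (p : ℤ[X]) (N : ℕ) :
    (p.reflect N).map (Int.castRingHom Eis) = (p.map (Int.castRingHom Eis)).reflect N := by
  ext1 n
  simp [Polynomial.coeff_reflect]

theorem une : UneS := by
  intro ι _ _ D hD
  obtain ⟨N, ε, hε, hdeg, hD⟩ := hD
  have hεε : (ε : Eis) * (ε : Eis) = 1 := by rcases hε with h | h <;> simp [h]
  refine ⟨mu (ε : Eis) N hεε, ?_⟩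
  change sharp (toE D) * AddMonoidAlgebra.single (fun _ => 1)
    (LaurentPolynomial.C (ε : Eis) * LaurentPolynomial.T (N : ℤ)) = toE D
  unfold toE
  rw [map_sum, Finset.sum_mul, ← Equiv.sum_comp (compl_involutive (α := Finset ι)).toPerm]
  refine Finset.sum_congr rfl fun S _ => ?_
  have hS : ((compl_involutive (α := Finset ι)).toPerm) S = Sᶜ := rfl
  rw [hS, sharp_single', AddMonoidAlgebra.single_mul_single, neg_ind_add, compl_compl, rsh_map]
  congr 1
  have h1 := hD Sᶜ
  rw [compl_compl] at h1
  rw [h1, Polynomial.map_mul, Polynomial.map_C, map_mul, Polynomial.toLaurent_C, map_reflect,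
    toLaurent_reflect N _ (Polynomial.natDegree_map_le.trans (hdeg _)), eq_intCast]
  ring

end

end Pool.Agent.B5.H18.Une

namespace Pool.Agent.B5.H18

open Pool.Agent.MP_b5021c_nt

theorem une (_ : TceS) : UneS := Une.une

end Pool.Agent.B5.H18
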