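import Pool.Agent.Lib.MP_b5021c_nt.IfaceS4
import Pool.Agent.Lib.MP_b5021c_nt.B.H18.CLL

/-!
# MP_b5021c_nt, row CLX: one closing with a pair of loads, summary in terms of the classes
-/

namespace Pool.Agent.B5.H18

open scoped LaurentPolynomial
open Pool.Agent.B5.Clo

theorem clx (cl3 : Cl3S) (e1 : E1S) (mv : MVS) (mm : MmulS) (g4 : G4S) : ClxS := by
  classical
  intro O _ _ _ _ P L _ _ _ _ _ phi D S i0 e₁ e₂ h hD hr hS hv1 hv2 hpr hfull
  obtain ⟨e, c, n, G, he, hF, halt⟩ :=
    cl3 O P L phi D S i0 e₁ e₂ h hD hr hS hv1 hv2 hpr hfull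
  have hg4 := g4 O P L phi D S i0 e h c n G hF
  refine ⟨e, he, ?_, ?_⟩
  · intro N hN B hB hB1 hBd
    have hMN : M (D.coeff 0 + (e : RO O) * D.coeff S) = N := ((mv O).1 N _ hN).2
    rw [hMN] at halt
    rw [hF.v00] at hN
    obtain ⟨Nc, Np, h1, h2, hNN⟩ := (e1 O).1 N _ _ hN
    have hMc : M c = Nc := ((mv O).1 Nc c h1).2
    rw [hMc] at halt
    obtain ⟨h3, h4⟩ := classV_prod e1 mv mm (fun i => (G i).coeff 0) Finset.univ Np h2
    have hone : ∀ i, 1 ≤ M ((G i).coeff 0) := fun i => (h3 i (Finset.mem_univ i)).1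
    have hNc : 1 ≤ Nc := h1.1
    have hbigp : Np = ∏ i ∈ big G, M ((G i).coeff 0) := by
      rw [h4]
      symm
      refine Finset.prod_subset (Finset.subset_univ _) fun i _ hi => ?_
      have h5 : ¬ 1 < M ((G i).coeff 0) := by
        intro h6
        apply hi
        unfold big
        rw [Finset.mem_filter]
        exact ⟨Finset.mem_univ _, h6⟩
      exact le_antisymm (not_lt.1 h5) (hone i)
    have hNbig : N = Nc * ∏ i ∈ big G, M ((G i).coeff 0) := by
      rw [hNN, hbigp]
    have hgt : ∀ i ∈ big G, 1 < M ((G i).coeff 0) := by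
      intro i hi
      unfold big at hi
      rw [Finset.mem_filter] at hi
      exact hi.2
    have hle : ∀ i, M ((G i).coeff 0) ≤ N := by
      intro i
      have h5 : M ((G i).coeff 0) ≤ ∏ j, M ((G j).coeff 0) := by
        rw [← Finset.mul_prod_erase Finset.univ _ (Finset.mem_univ i)]
        refine le_mul_of_one_le_right (by linarith [hone i]) ?_
        exact one_le_prod (fun j => M ((G j).coeff 0)) _ (fun j _ => hone j)
      have h6 : ∏ j, M ((G j).coeff 0) = Np := h4.symm
      have h7 : 0 ≤ Np := by linarith [h2.1]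
      rw [h6] at h5
      rw [hNN]
      nlinarith
    have hrk : ∀ i, (rk (supp (G i)) : ℝ) ≤ B (M ((G i).coeff 0)) := by
      intro i
      refine (hg4 i).1 (M ((G i).coeff 0)) _ (h3 i (Finset.mem_univ i)) (hB1 _) ?_
      intro N' hN' P' L' _ _ _ _ _ phi' D' hD' hcl
      exact (hBd N' (hN'.trans (hle i)) P' L' phi' D' hD' hcl).trans (hB hN')
    have honebig : (big G).card = 1 → Nc = 1 →
        ((∑ i ∈ big G, rk (supp (G i)) : ℕ) : ℝ) ≤ B N := by
      intro hc hN1
      obtain ⟨i, hi⟩ := Finset.card_eq_one.1 hc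
      have h5 : N = M ((G i).coeff 0) := by
        rw [hNbig, hi, Finset.prod_singleton, hN1, one_mul]
      rw [hi, Finset.sum_singleton, h5]
      exact hrk i
    rcases halt with ⟨hc, hN1, hd⟩ | ⟨hc, hN1, hd, hgain⟩ | ⟨hrich, hd, hl⟩
    · left
      have h6 := honebig hc hN1
      have h7 : (Module.finrank ℤ L : ℝ) ≤
          1 + ((∑ i ∈ big G, rk (supp (G i)) : ℕ) : ℝ) := by exact_mod_cast hd
      linarith
    · right; left
      have h6 := honebig hc hN1
      refine ⟨hgain, ?_⟩
      have h7 : (Module.finrank ℤ L : ℝ) ≤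
          2 + ((∑ i ∈ big G, rk (supp (G i)) : ℕ) : ℝ) := by exact_mod_cast hd
      linarith
    · right; right
      refine ⟨(big G).card, fun k => M ((G ((big G).equivFin.symm k)).coeff 0), Nc,
        (snp phi S i0 G).card, ?_, ⟨c, h1⟩, ?_, ?_, ?_, ?_⟩
      · intro k
        exact ⟨hgt _ ((big G).equivFin.symm k).2, _, h3 _ (Finset.mem_univ _)⟩
      · rw [prod_equiv_fin (big G) fun i => M ((G i).coeff 0)]
        exact hNbig.symm
      · intro hm hN1
        exact hrich hm hN1
      · rw [prod_equiv_fin (big G) fun i => M ((G i).coeff 0)]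
        exact hl
      · rw [sum_equiv_fin (big G) fun i => B (M ((G i).coeff 0))]
        have h6 : ∑ i ∈ big G, (rk (supp (G i)) : ℝ) ≤ ∑ i ∈ big G, B (M ((G i).coeff 0)) :=
          Finset.sum_le_sum fun i _ => hrk i
        have h7 : (Module.finrank ℤ L : ℝ) ≤
            2 + ((snp phi S i0 G).card : ℝ) + ∑ i ∈ big G, (rk (supp (G i)) : ℝ) := by
          exact_mod_cast hd
        linarith
  · intro θ' hθ C hC hBd
    have hMN : M (D.coeff 0 + (e : RO O) * D.coeff S) = θ' := ((mv O).2 θ' _ hθ).2
    rw [hMN] at halt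
    rw [hF.v00] at hθ
    rcases (e1 O).2 θ' _ _ hθ with ⟨h1, h2⟩ | ⟨h1, h2⟩
    · -- `c` is of class `P`, no big factor
      obtain ⟨h3, h4⟩ := classV_prod e1 mv mm (fun i => (G i).coeff 0) Finset.univ 1 h2
      have hone : ∀ i, 1 ≤ M ((G i).coeff 0) := fun i => (h3 i (Finset.mem_univ i)).1
      have hall : ∀ i, M ((G i).coeff 0) = 1 := by
        intro i
        have h7 : M ((G i).coeff 0) ≤ ∏ i, M ((G i).coeff 0) := by
          rw [← Finset.mul_prod_erase Finset.univ _ (Finset.mem_univ i)]
          refine le_mul_of_one_le_right (by linarith [hone i]) ?_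
          exact one_le_prod (fun i => M ((G i).coeff 0)) _ (fun i _ => hone i)
        have h8 : ∏ i, M ((G i).coeff 0) = 1 := h4.symm
        rw [h8] at h7
        linarith [hone i]
      have hbig : big G = ∅ := by
        unfold big
        rw [Finset.filter_eq_empty_iff]
        intro i _ hi
        rw [hall i] at hi
        exact lt_irrefl _ hi
      rw [hbig] at halt
      rcases halt with ⟨hc, _⟩ | ⟨hc, _⟩ | ⟨_, hd, hl⟩
      · simp at hc
      · simp at hc
      · right; right
        refine ⟨(snp phi S i0 G).card, Or.inl ⟨?_, ?_⟩⟩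
        · rw [Finset.prod_empty, mul_one] at hl
          exact hl
        · rw [Finset.sum_empty, add_zero] at hd
          exact_mod_cast hd
    · -- one of the factors is of class `P`
      have hMc : M c = 1 := ((mv O).1 1 c h1).2
      obtain ⟨i, _, h3, h4⟩ := classP_prod e1 mv mm (fun i => (G i).coeff 0) Finset.univ θ' h2
      have hMi : M ((G i).coeff 0) = θ' := ((mv O).2 θ' _ h3).2
      have hbig : big G = {i} := by
        unfold big
        ext j
        rw [Finset.mem_filter, Finset.mem_singleton]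
        constructor
        · rintro ⟨_, hj⟩
          by_contra hji
          have h5 := ((mv O).1 1 _ (h4 j (Finset.mem_univ j) hji)).2
          rw [h5] at hj
          exact lt_irrefl _ hj
        · rintro rfl
          exact ⟨Finset.mem_univ _, by rw [hMi]; exact h3.1⟩
      have h5 : (rk (supp (G i)) : ℝ) ≤ C := (hg4 i).2 θ' C h3 hC hBd
      rw [hbig, Finset.sum_singleton, Finset.prod_singleton, hMi] at halt
      rcases halt with ⟨_, _, hd⟩ | ⟨_, _, hd, hgain⟩ | ⟨hrich, hd, hl⟩
      · left
        have h7 : (Module.finrank ℤ L : ℝ) ≤ 1 + (rk (supp (G i)) : ℝ) := by exact_mod_cast hd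
        linarith
      · right; left
        refine ⟨hgain, ?_⟩
        have h7 : (Module.finrank ℤ L : ℝ) ≤ 2 + (rk (supp (G i)) : ℝ) := by exact_mod_cast hd
        linarith
      · right; right
        refine ⟨(snp phi S i0 G).card, Or.inr ⟨?_, hl, ?_⟩⟩
        · exact hrich (Finset.card_singleton i) hMc
        · have h7 : (Module.finrank ℤ L : ℝ) ≤
              2 + ((snp phi S i0 G).card : ℝ) + (rk (supp (G i)) : ℝ) := by exact_mod_cast hd
          linarith

end Pool.Agent.B5.H18
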