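import Pool.Agent.Lib.MP_b5021c_nt.IfaceE2
import Pool.Agent.Lib.MP_b5021c_nt.H45.Mmu

/-!
# Board b5, stage 3, row E2_DVC: a quotient which is integrable on the circle is integral
-/

namespace Pool.Agent.B5.H18

open scoped LaurentPolynomial
open Polynomial

/-- A polynomial with all roots on the unit circle divides `h` if the quotient is integrable. -/
theorem dvd_of_circleIntegrable : ∀ (n : ℕ) (u h : ℂ[X]), u.natDegree = n → u ≠ 0 →
    (∀ z ∈ u.roots, ‖z‖ = 1) →
    CircleIntegrable (fun z => h.eval z / u.eval z) 0 1 → u ∣ h := by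
  intro n
  induction n with
  | zero =>
    intro u h hd h0 _ _
    obtain ⟨a, ha⟩ := Polynomial.natDegree_eq_zero.mp hd
    have ha0 : a ≠ 0 := by
      rintro rfl
      exact h0 (by rw [← ha, map_zero])
    refine ⟨C a⁻¹ * h, ?_⟩
    rw [← ha, ← mul_assoc, ← map_mul, mul_inv_cancel₀ ha0, map_one, one_mul]
  | succ n ih =>
    intro u h hd h0 hr hi
    have hdeg : u.degree ≠ 0 := by
      intro hh
      have := Polynomial.natDegree_eq_zero_iff_degree_le_zero.mpr hh.le
      omega
    obtain ⟨z0, hz0⟩ := IsAlgClosed.exists_root u hdeg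
    have hmem : z0 ∈ u.roots := (Polynomial.mem_roots h0).mpr hz0
    have hn0 : ‖z0‖ = 1 := hr z0 hmem
    obtain ⟨u1, hu1⟩ := Polynomial.dvd_iff_isRoot.mpr hz0
    have hu10 : u1 ≠ 0 := by
      rintro rfl
      exact h0 (by rw [hu1, mul_zero])
    have hd1 : u1.natDegree = n := by
      have : u.natDegree = (X - C z0).natDegree + u1.natDegree := by
        rw [hu1, Polynomial.natDegree_mul (Polynomial.X_sub_C_ne_zero z0) hu10]
      rw [Polynomial.natDegree_X_sub_C, hd] at this
      omega
    have hr1 : ∀ z ∈ u1.roots, ‖z‖ = 1 := by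
      intro z hz
      apply hr
      rw [hu1, Polynomial.roots_mul (by rw [← hu1]; exact h0)]
      exact Multiset.mem_add.mpr (Or.inr hz)
    -- `h (z0) = 0`
    have hh0 : h.eval z0 = 0 := by
      by_contra hne
      have hi1 : CircleIntegrable (fun z => h.eval z / u.eval z * u1.eval z) 0 1 :=
        CircleIntegrable.fun_mul_continuousOn hi u1.continuous.continuousOn
      obtain ⟨h1, hh1⟩ : (X - C z0) ∣ h - C (h.eval z0) := by
        rw [Polynomial.dvd_iff_isRoot]
        simp [Polynomial.IsRoot]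
      have hi2 : CircleIntegrable (fun z => h.eval z * (z - z0)⁻¹) 0 1 := by
        refine CircleIntegrable.congr_codiscreteWithin ?_ hi1
        have hfin : {z : ℂ | u.eval z = 0}.Finite := by
          refine (u.roots.toFinset.finite_toSet).subset ?_
          intro z hz
          simp only [Finset.mem_coe, Multiset.mem_toFinset]
          exact (Polynomial.mem_roots h0).mpr hz
        filter_upwards [compl_finite_mem_codiscreteWithin
          (s := Metric.sphere (0 : ℂ) |1|) hfin] with z hz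
        have hz1 : u.eval z ≠ 0 := hz
        rw [hu1, Polynomial.eval_mul, Polynomial.eval_sub, Polynomial.eval_X,
          Polynomial.eval_C] at hz1 ⊢
        have a1 := left_ne_zero_of_mul hz1
        have a2 := right_ne_zero_of_mul hz1
        field_simp
      have hi3 : CircleIntegrable (fun z => h1.eval z) 0 1 :=
        (h1.continuous.continuousOn).circleIntegrable (by norm_num)
      have hi4 : CircleIntegrable (fun z => h.eval z * (z - z0)⁻¹ - h1.eval z) 0 1 := by
        have := hi2.add hi3.neg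
        refine (circleIntegrable_congr ?_).mp this
        intro z _
        simp [sub_eq_add_neg]
      have hi5 : CircleIntegrable (fun z => (h.eval z0)⁻¹ *
          (h.eval z * (z - z0)⁻¹ - h1.eval z)) 0 1 :=
        CircleIntegrable.fun_continuousOn_mul hi4 continuousOn_const
      have hi6 : CircleIntegrable (fun z => (z - z0)⁻¹) 0 1 := by
        refine CircleIntegrable.congr_codiscreteWithin ?_ hi5
        filter_upwards [compl_singleton_mem_codiscreteWithin
          (s := Metric.sphere (0 : ℂ) |1|) z0] with z hz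
        have hz1 : z - z0 ≠ 0 := sub_ne_zero.mpr hz
        have e : h.eval z - h.eval z0 = (z - z0) * h1.eval z := by
          have := congrArg (Polynomial.eval z) hh1
          simpa using this
        have e2 : h.eval z = h.eval z0 + (z - z0) * h1.eval z := by
          rw [← e]; ring
        rw [e2]
        field_simp
        ring
      rw [circleIntegrable_sub_inv_iff] at hi6
      rcases hi6 with h7 | h7
      · exact one_ne_zero h7
      · apply h7
        simp [hn0]
    obtain ⟨h1, hh1⟩ : (X - C z0) ∣ h := Polynomial.dvd_iff_isRoot.mpr hh0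
    have hi1 : CircleIntegrable (fun z => h1.eval z / u1.eval z) 0 1 := by
      refine CircleIntegrable.congr_codiscreteWithin ?_ hi
      filter_upwards [compl_singleton_mem_codiscreteWithin
        (s := Metric.sphere (0 : ℂ) |1|) z0] with z hz
      have hz1 : z - z0 ≠ 0 := sub_ne_zero.mpr hz
      rw [hu1, hh1, Polynomial.eval_mul, Polynomial.eval_mul, Polynomial.eval_sub,
        Polynomial.eval_X, Polynomial.eval_C, mul_div_mul_left _ _ hz1]
    obtain ⟨w, hw⟩ := ih u1 h1 hd1 hu10 hr1 hi1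
    exact ⟨w, by rw [hh1, hu1, hw, mul_assoc]⟩

section

variable {O : Type} [CommRing O] [Coef O]

theorem norm_prod_ge (s : Multiset ℂ) (h : ∀ z ∈ s, 1 ≤ ‖z‖) :
    1 ≤ ‖s.prod‖ ∧ (‖s.prod‖ = 1 → ∀ z ∈ s, ‖z‖ = 1) := by
  induction s using Multiset.induction_on with
  | empty => simp
  | cons a s ih =>
    obtain ⟨h1, h2⟩ := ih fun z hz => h z (Multiset.mem_cons_of_mem hz)
    have ha := h a (Multiset.mem_cons_self a s)
    rw [Multiset.prod_cons, norm_mul]
    refine ⟨by nlinarith, fun he => ?_⟩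
    have e1 : ‖a‖ = 1 := by nlinarith
    have e2 : ‖s.prod‖ = 1 := by rw [e1, one_mul] at he; exact he
    intro z hz
    rcases Multiset.mem_cons.mp hz with rfl | hz
    · exact e1
    · exact h2 e2 z hz

/-- The leading coefficient is a unit and all zeros are on the circle. -/
theorem unit_lead {q : O[X]} (h0 : ‖(Coef.emb (q.coeff 0) : ℂ)‖ = 1)
    (hz : ∀ z : ℂ, ‖z‖ < 1 → (q.map Coef.emb).eval z ≠ 0) :
    IsUnit q.leadingCoeff ∧ ∀ z ∈ (q.map (Coef.emb : O →+* ℂ)).roots, ‖z‖ = 1 := by
  have hq : q ≠ 0 := by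
    rintro rfl
    rw [Polynomial.coeff_zero, map_zero, norm_zero] at h0
    exact zero_ne_one h0
  have hq' := H45.map_emb_ne_zero hq
  have hs := (IsAlgClosed.splits (q.map (Coef.emb : O →+* ℂ))).coeff_zero_eq_leadingCoeff_mul_prod_roots
  have hr : ∀ z ∈ (q.map (Coef.emb : O →+* ℂ)).roots, 1 ≤ ‖z‖ := by
    intro z hz1
    by_contra hlt
    push Not at hlt
    exact hz z hlt ((Polynomial.mem_roots hq').mp hz1)
  obtain ⟨g1, g2⟩ := norm_prod_ge _ hr
  have hl : (q.map (Coef.emb : O →+* ℂ)).leadingCoeff = Coef.emb q.leadingCoeff :=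
    Polynomial.leadingCoeff_map_of_injective emb_inj q
  have hl1 : 1 ≤ ‖(Coef.emb q.leadingCoeff : ℂ)‖ :=
    Coef.one_le _ (Polynomial.leadingCoeff_ne_zero.mpr hq)
  have hn := congrArg norm hs
  rw [Polynomial.coeff_map, h0, norm_mul, norm_mul, norm_pow, norm_neg, norm_one, one_pow,
    one_mul, hl] at hn
  have e1 : ‖(Coef.emb q.leadingCoeff : ℂ)‖ = 1 := by nlinarith
  have e2 : ‖(q.map (Coef.emb : O →+* ℂ)).roots.prod‖ = 1 := by
    rw [e1, one_mul] at hn
    exact hn.symm
  refine ⟨?_, g2 e2⟩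
  refine IsUnit.of_mul_eq_one (Coef.conj q.leadingCoeff) ?_
  apply emb_inj (O := O)
  rw [map_mul, Coef.emb_conj, Complex.mul_conj, Complex.normSq_eq_norm_sq, e1, map_one]
  norm_num

theorem dvd_poly [IsDomain O] {q p : O[X]} (h0 : ‖(Coef.emb (q.coeff 0) : ℂ)‖ = 1)
    (hz : ∀ z : ℂ, ‖z‖ < 1 → (q.map Coef.emb).eval z ≠ 0)
    (hd : q.map (Coef.emb : O →+* ℂ) ∣ p.map Coef.emb) : q ∣ p := by
  obtain ⟨⟨v, hv⟩, _⟩ := unit_lead h0 hz
  have hq : q ≠ 0 := by
    rintro rfl
    rw [Polynomial.coeff_zero, map_zero, norm_zero] at h0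
    exact zero_ne_one h0
  have hmon : (C ((v⁻¹ : Oˣ) : O) * q).Monic := by
    rw [Polynomial.Monic, Polynomial.leadingCoeff_mul, Polynomial.leadingCoeff_C, ← hv,
      Units.inv_mul]
  have h1 : (C ((v⁻¹ : Oˣ) : O) * q).map (Coef.emb : O →+* ℂ) ∣ p.map Coef.emb := by
    rw [Polynomial.map_mul]
    refine (IsUnit.mul_left_dvd ?_).mpr hd
    rw [Polynomial.map_C]
    exact Polynomial.isUnit_C.mpr ((v⁻¹ : Oˣ).isUnit.map _)
  have h2 := (Polynomial.map_dvd_map (Coef.emb : O →+* ℂ) emb_inj hmon).mp h1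
  exact (Dvd.intro_left _ rfl).trans h2

end

/-- Row E2_DVC. -/
theorem dvc : DvcS := by
  intro O _ _ _ _ c p hc hi
  obtain ⟨_, n, q, rfl, h0, hz⟩ := hc
  obtain ⟨m, p1, hp1⟩ := LaurentPolynomial.exists_T_pow p
  -- `p = T (-m) * toLaurent p1`
  have hp : p = LaurentPolynomial.T (-(m : ℤ)) * toLaurent p1 := by
    rw [hp1, mul_comm, mul_assoc, ← LaurentPolynomial.T_add, add_neg_cancel,
      LaurentPolynomial.T_zero, mul_one]
  have hq : q ≠ 0 := by
    rintro rfl
    rw [Polynomial.coeff_zero, map_zero, norm_zero] at h0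
    exact zero_ne_one h0
  have hi1 : CircleIntegrable (fun z =>
      (p1.map (Coef.emb : O →+* ℂ)).eval z / (q.map (Coef.emb : O →+* ℂ)).eval z) 0 1 := by
    have hcont : ContinuousOn (fun z : ℂ => z ^ (n + (m : ℤ))) (Metric.sphere (0 : ℂ) |1|) := by
      refine ContinuousOn.zpow₀ continuousOn_id _ ?_
      intro z hz1
      left
      rintro rfl
      simp at hz1
    have h2 := CircleIntegrable.fun_mul_continuousOn hi hcont
    refine (circleIntegrable_congr ?_).mp h2
    intro z hz1
    have hz0 : z ≠ 0 := by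
      rintro rfl
      simp at hz1
    simp only
    rw [hp, H45.evL_T_mul hz0, H45.evL_T_mul hz0, zpow_neg, zpow_add₀ hz0]
    have a1 : z ^ (m : ℤ) ≠ 0 := zpow_ne_zero _ hz0
    have a2 : z ^ n ≠ 0 := zpow_ne_zero _ hz0
    by_cases a3 : (q.map (Coef.emb : O →+* ℂ)).eval z = 0
    · rw [a3]; simp
    · field_simp
  have hd : q.map (Coef.emb : O →+* ℂ) ∣ p1.map Coef.emb :=
    dvd_of_circleIntegrable _ _ _ rfl (H45.map_emb_ne_zero hq) (unit_lead h0 hz).2 hi1
  obtain ⟨w, hw⟩ := dvd_poly h0 hz hd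
  refine ⟨LaurentPolynomial.T (-(m : ℤ) - n) * toLaurent w, ?_⟩
  rw [hp, hw, map_mul]
  have e : (LaurentPolynomial.T (-(m : ℤ)) : RO O) =
      LaurentPolynomial.T n * LaurentPolynomial.T (-(m : ℤ) - n) := by
    rw [← LaurentPolynomial.T_add]
    congr 1
    ring
  rw [e]
  ring

end Pool.Agent.B5.H18
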